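import Pool.Agent.N414.LR.Stm

/-!
# Elementary inequalities for unit vectors (project LR of helper414, part NUM, helper255)
-/

set_option autoImplicit false

namespace Pool.Agent.N255.LR.NUM

theorem main : Pool.Agent.N414.LR.S_NUM := by
  classical
  intro Λ a ha
  have h1 : ∀ h, ‖a h‖ ^ 2 ≤ 1 := fun h => le_hasSum ha h fun _ _ => sq_nonneg _
  have h2 : ∀ h, ‖a h‖ ≤ 1 := fun h => by
    have := h1 h
    have := norm_nonneg (a h)
    nlinarith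
  have h3 : ∀ h, ‖a h‖ ^ 3 ≤ ‖a h‖ ^ 2 := fun h => by
    have h4 := h2 h
    have h5 := norm_nonneg (a h)
    have h6 : ‖a h‖ ^ 3 = ‖a h‖ * ‖a h‖ ^ 2 := by ring
    rw [h6]
    nlinarith [sq_nonneg ‖a h‖]
  have hs3 : Summable fun h => ‖a h‖ ^ 3 :=
    Summable.of_nonneg_of_le (fun h => by positivity) h3 ha.summable
  have hn : ∀ h, ‖a h * ((‖a h‖ ^ 2 : ℝ) : ℂ)‖ = ‖a h‖ ^ 3 := fun h => by
    rw [norm_mul, Complex.norm_real, Real.norm_eq_abs, abs_of_nonneg (sq_nonneg _)]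
    ring
  have hsn : Summable fun h => ‖a h * ((‖a h‖ ^ 2 : ℝ) : ℂ)‖ := by
    simp only [hn]; exact hs3
  have hsc : Summable fun h => a h * ((‖a h‖ ^ 2 : ℝ) : ℂ) := hsn.of_norm
  have hle : ‖∑' h, a h * ((‖a h‖ ^ 2 : ℝ) : ℂ)‖ ≤ ∑' h, ‖a h‖ ^ 3 := by
    refine (norm_tsum_le_tsum_norm hsn).trans (le_of_eq ?_)
    exact tsum_congr hn
  refine ⟨fun h₀ δ hδ hδ1 ht => ?_, fun η hη hη1 hsum => ?_⟩
  · have e1 := hsc.tsum_eq_add_tsum_ite h₀
    have e2 := ha.summable.tsum_eq_add_tsum_ite h₀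
    rw [ha.tsum_eq] at e2
    set R := ∑' n, ite (n = h₀) 0 (a n * ((‖a n‖ ^ 2 : ℝ) : ℂ)) with hR
    set R2 := ∑' n, ite (n = h₀) 0 (‖a n‖ ^ 2) with hR2
    have hs4 : Summable fun n => ite (n = h₀) 0 (‖a n‖ ^ 2) :=
      Summable.of_nonneg_of_le (fun n => by split_ifs <;> positivity)
        (fun n => by split_ifs <;> [positivity; exact le_rfl]) ha.summable
    have hRn : ∀ n, ‖ite (n = h₀) 0 (a n * ((‖a n‖ ^ 2 : ℝ) : ℂ))‖ ≤
        ite (n = h₀) 0 (‖a n‖ ^ 2) := by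
      intro n
      split_ifs
      · rw [norm_zero]
      · rw [hn]; exact h3 n
    have hRR : ‖R‖ ≤ R2 := by
      have hs5 : Summable fun n => ‖ite (n = h₀) 0 (a n * ((‖a n‖ ^ 2 : ℝ) : ℂ))‖ :=
        Summable.of_nonneg_of_le (fun n => norm_nonneg _) hRn hs4
      exact (norm_tsum_le_tsum_norm hs5).trans (hs5.tsum_le_tsum hRn hs4)
    have h5 : ‖a h₀‖ ^ 3 - ‖R‖ ≤ ‖∑' h, a h * ((‖a h‖ ^ 2 : ℝ) : ℂ)‖ := by
      rw [e1, ← hn h₀]
      have := norm_sub_norm_le (a h₀ * ((‖a h₀‖ ^ 2 : ℝ) : ℂ)) (-R)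
      rw [norm_neg, sub_neg_eq_add] at this
      exact this
    set s := ‖∑' h, a h * ((‖a h‖ ^ 2 : ℝ) : ℂ)‖ with hs
    have hs0 : 0 ≤ s := norm_nonneg _
    set t := ‖a h₀‖ with htd
    have h6 : t ^ 3 + t ^ 2 - 1 ≤ s := by linarith
    have h7 : (1 - δ) ^ 3 ≤ t ^ 3 := pow_le_pow_left₀ (by linarith) ht 3
    have h8 : (1 - δ) ^ 2 ≤ t ^ 2 := pow_le_pow_left₀ (by linarith) ht 2
    have h9 : 1 - 5 * δ ≤ s := by nlinarith [mul_nonneg (sq_nonneg δ) (by linarith : 0 ≤ 4 - δ)]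
    rcases le_total (1 - 5 * δ) 0 with h10 | h10
    · nlinarith [sq_nonneg s]
    · nlinarith [pow_le_pow_left₀ h10 h9 2, sq_nonneg δ]
  · by_contra hcon
    push Not at hcon
    set m := 1 - η with hm
    have hex : ∃ h₁, a h₁ ≠ 0 := by
      by_contra hc
      push Not at hc
      have : HasSum (fun h => ‖a h‖ ^ 2) 0 := by
        have e : (fun h => ‖a h‖ ^ 2) = fun _ => 0 := funext fun h => by rw [hc h]; simp
        rw [e]
        exact hasSum_zero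
      exact zero_ne_one (this.unique ha)
    obtain ⟨h₁, hh₁⟩ := hex
    have hpos : 0 < ‖a h₁‖ := norm_pos_iff.2 hh₁
    have hlt : ∑' h, ‖a h‖ ^ 3 < ∑' h, m * ‖a h‖ ^ 2 := by
      refine Summable.tsum_lt_tsum (i := h₁) (fun h => ?_) ?_ hs3 (ha.summable.mul_left m)
      · have := (hcon h).le
        have e : ‖a h‖ ^ 3 = ‖a h‖ * ‖a h‖ ^ 2 := by ring
        rw [e]
        exact mul_le_mul_of_nonneg_right this (sq_nonneg _)
      · have e : ‖a h₁‖ ^ 3 = ‖a h₁‖ * ‖a h₁‖ ^ 2 := by ring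
        rw [e]
        exact mul_lt_mul_of_pos_right (hcon h₁) (by positivity)
    rw [tsum_mul_left, ha.tsum_eq, mul_one] at hlt
    have h4 := hle.trans_lt hlt
    have h5 := norm_nonneg (∑' h, a h * ((‖a h‖ ^ 2 : ℝ) : ℂ))
    have h6 : m ≤ 1 := by rw [hm]; linarith
    nlinarith

end Pool.Agent.N255.LR.NUM
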